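import Pool.Agent.X194.TT.Main

/-!
MP_6a4cde_an, Q1: the answer is **no**.  Every infinite (countable) group `G` acts continuously on
a compact metrizable space (a subshift of `{0,1}^G`) so that the system is `3`-tame but not tame.
-/

namespace Pool.Agent.Results.MP_6a4cde_an.ThreeTameNotTame

open Pool.Agent.X194.TT

universe u

theorem result (G : Type u) [Group G] [Countable G] [Infinite G] :
    ∃ (X : Type u) (_ : TopologicalSpace X) (_ : MulAction G X),
      CompactSpace X ∧ TopologicalSpace.MetrizableSpace X ∧
      (∀ g : G, Continuous fun x : X => g • x) ∧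
      IsNTame G X 3 ∧ ¬ IsNTame G X 2 := by
  refine ⟨XX G, inferInstance, inferInstance, ?_, inferInstance, smul_cont, three_tame,
    not_two_tame⟩
  exact isCompact_iff_compactSpace.1 XX_closed.isCompact

end Pool.Agent.Results.MP_6a4cde_an.ThreeTameNotTame
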